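import Pool.Agent.K3h3.MK.Main

/-!
# Isaacs–Navarro counts: asymptotic inequalities in one degree class decide
-/

set_option autoImplicit false
set_option linter.unusedSectionVars false
set_option linter.style.haveILetI false

open scoped BigOperators Classical

noncomputable section

namespace Pool.Agent.U610.IN

open Pool.Agent.Helper884 Pool.Agent.H254R3.IN Pool.Agent.K3h3.MK Pool.Agent.K3h3.KB
open Pool.Agent.Q90.WR (card_Irr_le norm_equiv)
open IC (Irr)

variable (p : ℕ) [hp : Fact p.Prime]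

/-- the difference of the weighted numbers -/
def dl {G : Type} [Group G] [Finite G] (P : Sylow p G) : RR p := wt (cl p) G - wt (cl p) (NN P)

theorem dl_congr {G G' : Type} [Group G] [Finite G] [Group G'] [Finite G'] (e : G ≃* G')
    (P : Sylow p G) (P' : Sylow p G') : dl p P = dl p P' := by
  let P'' : Sylow p G' := P.mapSurjective (f := e.toMonoidHom) e.surjective
  have h1 : (NN P).map e.toMonoidHom = NN P'' := by
    have := Subgroup.map_equiv_normalizer_eq (P : Subgroup G) e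
    exact this
  have h2 : wt (cl p) (NN P) = wt (cl p) (NN P'') := by
    rw [← h1]
    exact wt_congr _ (e.subgroupMap (K3h3.MK.NN P))
  unfold dl
  rw [wt_congr (cl p) e, h2, wt_NN (cl p) P'' P']

theorem dl_prod {G H : Type} [Group G] [Group H] [Finite G] [Finite H] (hH : ¬ p ∣ Nat.card H)
    (P : Sylow p G) (R : Sylow p (G × H)) : dl p R = dl p P * wt (cl p) H :=
  del_prod (cl p) hH P R

theorem dl_nonsq {G : Type} [Group G] [Finite G] (P : Sylow p G) {v : (ZMod p)ˣ}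
    (hv : ∀ u, u ^ 2 ≠ v) : (dl p P).coeff v = 0 := by
  have h1 := coeff_nonsq p G hv
  have h2 := coeff_nonsq p (NN P) hv
  have h3 : (dl p P).coeff v = (wt (cl p) G).coeff v - (wt (cl p) (NN P)).coeff v := rfl
  rw [h3, h1, h2, sub_zero]

/-- products with the groups `C_Q ⋊ C_a` -/
theorem coeff_key {a k Q : ℕ} (hQ : Q.Prime) (hpQ : p < Q) (hQk : Q = 1 + a * k) (ha0 : a ≠ 0)
    (hap : a < p) (h : (a : ZMod p) ≠ 0) {G : Type} [Group G] [Finite G] (P : Sylow p G)
    (b : (ZMod p)ˣ) : ∃ (H : Type) (_ : Group H) (_ : Finite H), IsMetacyclic H ∧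
      ¬ p ∣ Nat.card H ∧ Nat.card H = Q * a ∧ ∀ R : Sylow p (G × H), (dl p R).coeff (b ^ 2) =
        (k : ℤ) * (dl p P).coeff (b ^ 2 * ((Units.mk0 (a : ZMod p) h) ^ 2)⁻¹) +
          (a : ℤ) * (dl p P).coeff (b ^ 2) := by
  haveI : Fact Q.Prime := ⟨hQ⟩
  obtain ⟨H', i1, i2, h1, h2, h3, h4⟩ := exists_frob p ha0 hQk hap hpQ.ne'
  refine ⟨H', i1, i2, h1, h3, h2, fun R => ?_⟩
  rw [dl_prod p h3 P, h4, mul_add]
  have e1 : (dl p P * ((k : RR p) * cl p a)).coeff (b ^ 2) =
      (k : ℤ) * (dl p P).coeff (b ^ 2 * ((Units.mk0 (a : ZMod p) h) ^ 2)⁻¹) := by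
    rw [mul_left_comm, coeff_natCast_mul, cl_apply p h, coeff_mul_single']
  have e2 : (dl p P * (a : RR p)).coeff (b ^ 2) = (a : ℤ) * (dl p P).coeff (b ^ 2) := by
    rw [mul_comm, coeff_natCast_mul]
  rw [MonoidAlgebra.coeff_add, Finsupp.add_apply, e1, e2]

/-- a one-sided asymptotic inequality in one degree class gives the inequalities in all classes -/
theorem le_of_asy (s : ℤ) (b : (ZMod p)ˣ) (X : (G : Type) → [Group G] → Prop)
    (hprod : ∀ (G H : Type) [Group G] [Finite G] [Group H] [Finite H], X G → IsMetacyclic H →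
      ¬ p ∣ Nat.card H → X (G × H))
    (H : ∀ ε : ℝ, 0 < ε → ∃ C : ℕ, ∀ (G : Type) [Group G] [Finite G], X G → C ≤ Nat.card G →
      ∀ P : Sylow p G, ((s * (dl p P).coeff (b ^ 2) : ℤ) : ℝ) ≤ ε * Nat.card G)
    (G : Type) [Group G] [Finite G] (hG : X G) (P : Sylow p G) (v : (ZMod p)ˣ) :
    s * (dl p P).coeff v ≤ 0 := by
  by_contra hcon
  push Not at hcon
  have hsq : ∃ u, u ^ 2 = v := by
    by_contra hv
    push Not at hv
    rw [dl_nonsq p P hv, mul_zero] at hcon
    exact lt_irrefl _ hcon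
  obtain ⟨u, rfl⟩ := hsq
  obtain ⟨a, ha0, hap, -, h, ha⟩ := exists_rep p (q := p + 1) (by omega) (b * u⁻¹)
  have e : b ^ 2 * ((Units.mk0 (a : ZMod p) h) ^ 2)⁻¹ = u ^ 2 := by
    rw [ha, mul_pow, inv_pow, mul_inv, inv_inv, mul_inv_cancel_left]
  have hG0 : (0 : ℝ) < Nat.card G := by exact_mod_cast Nat.card_pos
  have ha' : (0 : ℝ) < a := by exact_mod_cast Nat.pos_of_ne_zero ha0
  obtain ⟨C, hC⟩ := H (1 / (8 * Nat.card G * (a : ℝ) ^ 2)) (by positivity)
  set B : ℕ := (s * (dl p P).coeff (b ^ 2)).natAbs with hB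
  obtain ⟨Q, hQ, hlt, hmod⟩ := Nat.exists_prime_gt_modEq_one (k := a)
    (max (max C p) (1 + a * (4 * a * B + 1))) ha0
  have hQC : C < Q := lt_of_le_of_lt ((le_max_left _ _).trans (le_max_left _ _)) hlt
  have hQp : p < Q := lt_of_le_of_lt ((le_max_right _ _).trans (le_max_left _ _)) hlt
  have hQB : 1 + a * (4 * a * B + 1) < Q := lt_of_le_of_lt (le_max_right _ _) hlt
  obtain ⟨k, hk⟩ : ∃ k, Q = 1 + a * k := by
    obtain ⟨k, hk⟩ := (Nat.modEq_iff_dvd' hQ.one_lt.le).mp hmod.symm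
    exact ⟨k, by omega⟩
  have hkB : 4 * a * B + 1 < k := by
    have h1 : a * (4 * a * B + 1) < a * k := by omega
    exact lt_of_mul_lt_mul_left h1 (Nat.zero_le _)
  obtain ⟨H', i1, i2, h1, h2, h3, h4⟩ := coeff_key p hQ hQp hk ha0 hap h P b
  have h5 := hC (G × H') (hprod G H' hG h1 h2) (by
    rw [Nat.card_prod, h3]
    have h6 : 1 ≤ Nat.card G := Nat.card_pos
    have h7 : 1 ≤ a := Nat.pos_of_ne_zero ha0
    calc C ≤ Q := hQC.le
      _ = 1 * (Q * 1) := by ring
      _ ≤ Nat.card G * (Q * a) := Nat.mul_le_mul h6 (Nat.mul_le_mul_left _ h7)) default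
  rw [h4, e, Nat.card_prod, h3] at h5
  have hD : (1 : ℝ) ≤ ((s * (dl p P).coeff (u ^ 2) : ℤ) : ℝ) := by exact_mod_cast hcon
  have hBb : -(B : ℝ) ≤ ((s * (dl p P).coeff (b ^ 2) : ℤ) : ℝ) := by
    have h6 : -(B : ℤ) ≤ s * (dl p P).coeff (b ^ 2) := by
      rw [hB]
      omega
    exact_mod_cast h6
  have h6 : ((s * ((k : ℤ) * (dl p P).coeff (u ^ 2) + (a : ℤ) * (dl p P).coeff (b ^ 2)) : ℤ) : ℝ) =
      (k : ℝ) * ((s * (dl p P).coeff (u ^ 2) : ℤ) : ℝ) +
        (a : ℝ) * ((s * (dl p P).coeff (b ^ 2) : ℤ) : ℝ) := by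
    push_cast
    ring
  rw [h6] at h5
  have hkr : (4 * a * B + 1 : ℝ) < k := by exact_mod_cast hkB
  have hB0 : (0 : ℝ) ≤ B := Nat.cast_nonneg _
  have hk0 : (0 : ℝ) < k := by nlinarith [mul_nonneg ha'.le hB0]
  have h7 : 1 / (8 * (Nat.card G : ℝ) * (a : ℝ) ^ 2) * ((Nat.card G * (Q * a) : ℕ) : ℝ) ≤ k / 4 := by
    have h8 : (Q : ℝ) = 1 + a * k := by exact_mod_cast hk
    have h9 : (1 : ℝ) ≤ a * k := by
      have : 1 ≤ a * k := Nat.mul_pos (Nat.pos_of_ne_zero ha0) (by omega)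
      exact_mod_cast this
    push_cast
    rw [h8]
    have h10 : 1 / (8 * (Nat.card G : ℝ) * (a : ℝ) ^ 2) * ((Nat.card G : ℝ) * ((1 + a * k) * a)) =
        (1 + a * k) / (8 * a) := by
      field_simp
    rw [h10, div_le_div_iff₀ (by positivity) (by norm_num)]
    nlinarith
  have h11 : (k : ℝ) * 1 ≤ (k : ℝ) * ((s * (dl p P).coeff (u ^ 2) : ℤ) : ℝ) :=
    mul_le_mul_of_nonneg_left hD hk0.le
  have h12 : (a : ℝ) * (-(B : ℝ)) ≤ (a : ℝ) * ((s * (dl p P).coeff (b ^ 2) : ℤ) : ℝ) :=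
    mul_le_mul_of_nonneg_left hBb ha'.le
  nlinarith [mul_nonneg ha'.le hB0]

/-! ### the total number -/

/-- the sum of the coefficients -/
def tot (x : RR p) : ℤ := ∑ v, x.coeff v

theorem tot_sub (x y : RR p) : tot p (x - y) = tot p x - tot p y := by
  unfold tot
  rw [← Finset.sum_sub_distrib]
  rfl

theorem tot_wt (G : Type) [Group G] [Finite G] : tot p (wt (cl p) G) = Nat.card (X p G) := by
  unfold tot
  simp_rw [coeff_wt]
  rw [← Nat.cast_sum]
  congr 1
  rw [← Nat.card_congr (Equiv.sigmaFiberEquiv (kap p : X p G → (ZMod p)ˣ)), Nat.card_sigma]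

/-- a one-sided asymptotic inequality for the total number -/
theorem tot_of_asy (s : ℤ) (X : (G : Type) → [Group G] → Prop)
    (hprod : ∀ (G H : Type) [Group G] [Finite G] [Group H] [Finite H], X G → IsMetacyclic H →
      ¬ p ∣ Nat.card H → X (G × H))
    (H : ∀ ε : ℝ, 0 < ε → ∃ C : ℕ, ∀ (G : Type) [Group G] [Finite G], X G → C ≤ Nat.card G →
      ∀ P : Sylow p G, ((s * tot p (dl p P) : ℤ) : ℝ) ≤ ε * Nat.card G)
    (G : Type) [Group G] [Finite G] (hG : X G) (P : Sylow p G) :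
    s * tot p (dl p P) ≤ 0 := by
  by_contra hcon
  push Not at hcon
  have hG0 : (0 : ℝ) < Nat.card G := by exact_mod_cast Nat.card_pos
  obtain ⟨C, hC⟩ := H (1 / (2 * Nat.card G)) (by positivity)
  obtain ⟨Q, hlt, hQ⟩ := Nat.exists_infinite_primes (max C p + 1)
  have hQC : C < Q := by have := le_max_left C p; omega
  have hQp : p < Q := by have := le_max_right C p; omega
  haveI : Fact Q.Prime := ⟨hQ⟩
  obtain ⟨H', i1, i2, h1, h2, h3, h4⟩ := exists_frob p (Q := Q) (a := 1) (k := Q - 1) one_ne_zero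
    (by have := hQ.two_le; omega) hp.out.one_lt hQp.ne'
  have h5 : wt (cl p) H' = (Q : RR p) := by
    rw [h4, map_one, mul_one, Nat.cast_one]
    have := hQ.two_le
    have h6 : ((Q - 1 : ℕ) : RR p) + 1 = ((Q - 1 + 1 : ℕ) : RR p) := by push_cast; ring
    rw [h6]
    congr 1
    omega
  have h7 := hC (G × H') (hprod G H' hG h1 h3) (by
    rw [Nat.card_prod, h2]
    have h6 : 1 ≤ Nat.card G := Nat.card_pos
    calc C ≤ Q := hQC.le
      _ = 1 * (Q * 1) := by ring
      _ ≤ Nat.card G * (Q * 1) := Nat.mul_le_mul_right _ h6) default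
  have h8 : tot p (dl p (default : Sylow p (G × H'))) = (Q : ℤ) * tot p (dl p P) := by
    rw [dl_prod p h3 P, h5, mul_comm]
    unfold tot
    rw [Finset.mul_sum]
    exact Finset.sum_congr rfl fun v _ => coeff_natCast_mul p Q _ v
  rw [h8, Nat.card_prod, h2] at h7
  have hD : (1 : ℝ) ≤ ((s * tot p (dl p P) : ℤ) : ℝ) := by exact_mod_cast hcon
  have hQ0 : (0 : ℝ) < Q := by exact_mod_cast hQ.pos
  have h9 : ((s * ((Q : ℤ) * tot p (dl p P)) : ℤ) : ℝ) = (Q : ℝ) * ((s * tot p (dl p P) : ℤ) : ℝ) := by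
    push_cast
    ring
  have h10 : 1 / (2 * (Nat.card G : ℝ)) * ((Nat.card G * (Q * 1) : ℕ) : ℝ) = Q / 2 := by
    push_cast
    field_simp
  rw [h9, h10] at h7
  nlinarith

/-- nonpositive coefficients and nonnegative sum -/
theorem eq_zero_of_tot (s : ℤ) (hs : s ≠ 0) {x : RR p} (h1 : ∀ v, s * x.coeff v ≤ 0)
    (h2 : 0 ≤ s * tot p x) : x = 0 := by
  unfold tot at h2
  rw [Finset.mul_sum] at h2
  have h3 : ∑ v, s * x.coeff v = 0 := le_antisymm (Finset.sum_nonpos fun v _ => h1 v) h2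
  have h4 := (Finset.sum_eq_zero_iff_of_nonpos fun v _ => h1 v).mp h3
  ext v
  have h5 := h4 v (Finset.mem_univ v)
  exact (mul_eq_zero.mp h5).resolve_left hs

/-! ### one group -/

theorem coeff_bound {G : Type} [Group G] [Finite G] (P : Sylow p G) (v : (ZMod p)ˣ) :
    ((dl p P).coeff v).natAbs ≤ Nat.card G := by
  have h0 : ∀ (K : Type) [Group K] [Finite K], Nat.card {χ : X p K // kap p χ = v} ≤ Nat.card K := by
    intro K _ _
    haveI := Fintype.ofFinite K
    calc Nat.card {χ : X p K // kap p χ = v} ≤ Nat.card (Irr K) := by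
          refine Nat.card_le_card_of_injective
            (fun χ => (⟨χ.1.1, mem_Irr.mpr χ.1.2.1⟩ : Irr K)) fun χ ψ h => ?_
          have h' : χ.1.1 = ψ.1.1 := by
            have := congrArg (Subtype.val : Irr K → K → ℂ) h
            simpa using this
          exact Subtype.ext (Subtype.ext h')
      _ = (Irr K).card := by rw [Nat.card_eq_fintype_card, Fintype.card_coe]
      _ ≤ Nat.card K := card_Irr_le K
  have h1 := h0 G
  have h2 := (h0 (NN P)).trans (Nat.card_le_card_of_injective (Subtype.val : NN P → G)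
    Subtype.val_injective)
  have h3 : (dl p P).coeff v = (wt (cl p) G).coeff v - (wt (cl p) (NN P)).coeff v := rfl
  rw [h3, coeff_wt, coeff_wt]
  omega

theorem levels {q : ℕ} (hq : q.Prime) (hqp : q ≠ p) (h2 : ¬ q ∣ (p - 1) / 2)
    {S : Type} [CommGroup S] [Finite S] (hS : Nat.card S = q) (W : ℕ → Type) [∀ j, Group (W j)]
    [∀ j, Finite (W j)] (e : ∀ j, Nonempty (W (j + 1) ≃* Wr (W j) S)) :
    ∀ n j : ℕ, (∀ i ≤ n, ∀ Q : Sylow p (W (j + i)), ((q ^ 1 : ℕ) : RR p) ∣ dl p Q) →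
      ∀ P : Sylow p (W j), ((q ^ (n + 1) : ℕ) : RR p) ∣ dl p P := by
  intro n
  induction n with
  | zero =>
    intro j h P
    exact h 0 le_rfl P
  | succ n ih =>
    intro j h P
    have h1 := ih j (fun i hi Q => h i (by omega) Q) P
    have h3 : ∀ Q : Sylow p (W (j + 1)), ((q ^ (n + 1) : ℕ) : RR p) ∣ dl p Q := by
      refine ih (j + 1) fun i hi Q => ?_
      have h4 := h (i + 1) (by omega)
      have e1 : j + (i + 1) = j + 1 + i := by ring
      rw [e1] at h4
      exact h4 Q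
    obtain ⟨e⟩ := e j
    have h5 : ((q ^ (n + 1) : ℕ) : RR p) ∣ dl p (default : Sylow p (Wr (W j) S)) := by
      rw [← dl_congr p e (default : Sylow p (W (j + 1)))]
      exact h3 _
    exact step_grp p hq hqp h2 (Nat.succ_le_succ (Nat.zero_le n)) hS P default h1 h5

theorem one_group {q : ℕ} (hq : q.Prime) (hqp : q ≠ p) (h2 : ¬ q ∣ (p - 1) / 2)
    {S : Type} [CommGroup S] [Finite S] (hS : Nat.card S = q) (W : ℕ → Type) [∀ j, Group (W j)]
    [∀ j, Finite (W j)] (e : ∀ j, Nonempty (W (j + 1) ≃* Wr (W j) S)) (P : Sylow p (W 0)) :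
    dl p P = 0 ↔ ∀ j, q ^ j ≤ Nat.card (W 0) → ∀ Q : Sylow p (W j), ((q ^ 1 : ℕ) : RR p) ∣ dl p Q := by
  constructor
  · intro h0
    have key : ∀ j, ∀ Q : Sylow p (W j), dl p Q = 0 := by
      intro j
      induction j with
      | zero =>
        intro Q
        rw [← h0]
        exact dl_congr p (MulEquiv.refl _) Q P
      | succ j ih =>
        intro Q
        obtain ⟨e⟩ := e j
        rw [dl_congr p e Q (default : Sylow p (Wr (W j) S))]
        have h3 := ih (default : Sylow p (W j))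
        unfold dl at h3 ⊢
        rw [sub_eq_zero] at h3 ⊢
        exact del_wr_eq_zero p hq hqp hS _ _ h3
    intro j _ Q
    rw [key j Q]
    exact dvd_zero _
  · intro h
    have hc : Nat.card (W 0) ≠ 0 := Nat.card_pos.ne'
    have h3 := levels p hq hqp h2 hS W e (Nat.log q (Nat.card (W 0))) 0 (fun i hi Q => by
      have e1 : 0 + i = i := zero_add i
      have h4 := h i (Nat.pow_le_of_le_log hc hi)
      have : ∀ (m : ℕ) (_ : m = i) (Q : Sylow p (W m)), ((q ^ 1 : ℕ) : RR p) ∣ dl p Q := by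
        rintro m rfl Q
        exact h4 Q
      exact this _ e1 Q) P
    ext v
    change (dl p P).coeff v = 0
    by_contra hne
    have h4 := coeff_of_dvd p h3 v
    have h5 : q ^ (Nat.log q (Nat.card (W 0)) + 1) ∣ ((dl p P).coeff v).natAbs := by
      rw [← Int.natCast_dvd]
      exact h4
    have h6 := Nat.le_of_dvd (Int.natAbs_pos.mpr hne) h5
    have h7 := coeff_bound p P v
    have h8 := Nat.lt_pow_succ_log_self hq.one_lt (Nat.card (W 0))
    rw [Nat.succ_eq_add_one] at h8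
    omega

end Pool.Agent.U610.IN
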